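import Mathlib

set_option autoImplicit false

namespace Pool.Agent.Results.MP_c843e9_co.Bound

open SimpleGraph Finset

variable {V : Type} [Fintype V] (G : SimpleGraph V)

/-- Number of vertices at even distance from `v` (including `v`). -/
noncomputable def Dev (v : V) : ℕ := {u | Even (G.dist u v)}.ncard

/-- Independence number of the subgraph induced on the open neighbourhood of `v`. -/
noncomputable def lam (v : V) : ℕ := (G.induce (G.neighborSet v)).indepNum

lemma loc (w : V) (S : Finset V) (h1 : ∀ u ∈ S, G.Adj w u) (h2 : ∀ a ∈ S, ∀ b ∈ S, ¬ G.Adj a b) :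
    #S ≤ ⨆ v, lam G v := by
  classical
  refine le_trans ?_ (le_ciSup (Set.finite_range _).bddAbove w)
  have i : (G.induce (G.neighborSet w)).IsIndepSet (S.subtype (· ∈ G.neighborSet w) : Set _) := by
    intro a ha b hb _
    simp only [mem_coe, mem_subtype] at ha hb
    exact h2 _ ha _ hb
  have := i.card_le_indepNum
  rwa [card_subtype, filter_true_of_mem (p := (· ∈ G.neighborSet w)) fun u hu => h1 u hu] at this

lemma par (hG : G.Connected) (v u : V) (h : u ≠ v) : ∃ p, G.Adj u p ∧ G.dist p v + 1 = G.dist u v := by
  obtain ⟨q, hq⟩ := hG.exists_walk_length_eq_dist u v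
  cases q with
  | nil => exact absurd rfl h
  | cons a q =>
    rename_i p
    refine ⟨p, a, le_antisymm ?_ ?_⟩
    · have := dist_le q
      simp at hq; omega
    · have := hG.dist_triangle (u := u) (v := p) (w := v)
      rw [dist_eq_one_iff_adj.2 a] at this; omega

lemma key (hG : G.Connected) (v : V) : G.indepNum ≤ 1 + Dev G v * ((⨆ v, lam G v) - 1) := by
  classical
  obtain ⟨I, hI, e⟩ := G.exists_isNIndepSet_indepNum
  have ind : ∀ a ∈ I, ∀ b ∈ I, ¬ G.Adj a b := fun a ha b hb h => hI ha hb h.ne h
  have lip : ∀ a b, G.Adj a b → G.dist a v ≤ G.dist b v + 1 := fun a b h => by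
    have := hG.dist_triangle (u := a) (v := b) (w := v)
    rw [dist_eq_one_iff_adj.2 h] at this; omega
  have z : ∀ u, G.dist u v = 0 ↔ u = v := fun u => hG.dist_eq_zero_iff
  choose! p pa pd using par G hG v
  set L := ⨆ v, lam G v
  let f : V → V := fun u => if Even (G.dist u v) then u else p u
  let E : Finset V := {u | Even (G.dist u v)}
  have nv : ∀ u, ¬ Even (G.dist u v) → u ≠ v := fun u h e => h (by rw [(z u).2 e]; simp)
  have hf : ∀ u ∈ I, f u ∈ E := fun u _ => by
    simp only [f, E, mem_filter, mem_univ, true_and]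
    split_ifs with h
    · exact h
    · rw [← pd u (nv u h), Nat.even_add_one, not_not] at h; exact h
  have fib : ∀ w ∈ E, #{u ∈ I | f u = w} ≤ (if w = v then 1 else 0) + (L - 1) := by
    intro w hw
    simp only [E, mem_filter, mem_univ, true_and] at hw
    have ch : ∀ u, f u = w → u ≠ w → G.Adj w u ∧ G.dist w v + 1 = G.dist u v := fun u h n => by
      simp only [f] at h
      split_ifs at h with k
      · exact absurd h n
      · subst h; exact ⟨(pa u (nv u k)).symm, pd u (nv u k)⟩
    by_cases wi : w ∈ I
    · have : #{u ∈ I | f u = w} ≤ 1 := card_le_one.2 fun a ha b hb => by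
        simp only [mem_filter] at ha hb
        have : ∀ a, a ∈ I ∧ f a = w → a = w := fun a ha => by
          by_contra n; exact ind _ wi _ ha.1 (ch a ha.2 n).1
        rw [this a ha, this b hb]
      split_ifs with h
      · omega
      · have d1 := pd w h
        have n1 : p w ≠ v := fun e => by
          rw [(z _).2 e] at d1; rw [← d1] at hw; simp at hw
        have d2 := pd _ n1
        have := loc G (p w) {w, p (p w)} (by simp [pa _ n1, (pa w h).symm]) (by
          have : ¬ G.Adj w (p (p w)) := fun a => by have := lip _ _ a; omega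
          simp [this, G.adj_comm (p (p w)) w])
        rw [card_pair fun e => by rw [← e] at d2; omega] at this
        omega
    · have c : ∀ u ∈ ({u ∈ I | f u = w} : Finset V), u ∈ I ∧ G.Adj w u ∧ G.dist w v + 1 = G.dist u v :=
        fun u hu => by
          simp only [mem_filter] at hu
          exact ⟨hu.1, ch u hu.2 fun e => wi (e ▸ hu.1)⟩
      generalize ({u ∈ I | f u = w} : Finset V) = S at c ⊢
      split_ifs with h
      · have := loc G w S (fun u hu => (c u hu).2.1) fun a ha b hb => ind _ (c a ha).1 _ (c b hb).1
        omega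
      · have d1 := pd w h
        have := loc G w (insert (p w) S) (by
          simp only [mem_insert, forall_eq_or_imp]; exact ⟨pa w h, fun u hu => (c u hu).2.1⟩) (by
          have : ∀ a ∈ S, ¬ G.Adj a (p w) := fun a ha k => by
            have := lip _ _ k; have := (c a ha).2.2; omega
          simp only [mem_insert, forall_eq_or_imp]
          exact ⟨⟨G.irrefl, fun a ha k => this a ha k.symm⟩,
            fun a ha => ⟨this a ha, fun b hb => ind _ (c a ha).1 _ (c b hb).1⟩⟩)
        rw [card_insert_of_notMem fun k => by have := (c _ k).2.2; omega] at this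
        omega
  have D : Dev G v = #E := by simp [Dev, E, ← Set.ncard_coe_finset]
  rw [← e, card_eq_sum_card_fiberwise hf, D]
  refine (sum_le_sum fib).trans ?_
  rw [sum_add_distrib, sum_ite_eq', sum_const, smul_eq_mul]
  split_ifs <;> omega

theorem result {V : Type} [Fintype V] [Nontrivial V] (G : SimpleGraph V) (hG : G.Connected) :
    (G.indepNum : ℤ) ≤ 1 + (⨅ v, Dev G v : ℕ) * (((⨆ v, lam G v : ℕ) : ℤ) - 1) := by
  classical
  obtain ⟨a, b, n⟩ := exists_pair_ne V
  obtain ⟨p, h, -⟩ := par G hG b a n
  have one := loc G a {p} (by simpa using h) (by simp)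
  haveI : Nonempty V := ⟨a⟩
  obtain ⟨v, hv⟩ := ciInf_mem (Dev G)
  have := key G hG v
  rw [← hv]
  rw [card_singleton] at one
  zify [one] at this
  exact this

end Pool.Agent.Results.MP_c843e9_co.Bound
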